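import Mathlib

/-!
# Higher-order weak-coupling asymptotics can fail for one system that satisfies the hypotheses of
all orders at once

Stronger form of the starting result `HigherOrderFails`, where for every finite number `K` of
conditions there is a (finite-dimensional) system: here ONE system satisfies the hypotheses of the
problem for every `n`, all the operators `P L_{t_1} ⋯ L_{t_k} P`, `k ≥ 1`, being zero, and the
conclusion fails for every `n`, even with `o(1)` in place of `O(lam ^ (2 n + 2))`.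
-/

set_option autoImplicit false
open Filter Topology MeasureTheory

namespace Pool.Agent.Results.MP_245269_an.AllOrdersAtOnce

section Defs

variable {B : Type*} [NormedAddCommGroup B] [NormedSpace ℂ B]

/-- `U` (used at times `t ≥ 0`) is a strongly continuous one-parameter semigroup on `B`. -/
structure IsC0Semigroup (U : ℝ → B →L[ℂ] B) : Prop where
  zero : U 0 = 1
  add : ∀ s t, 0 ≤ s → 0 ≤ t → U (s + t) = U s * U t
  cont : ∀ x, ContinuousOn (fun t => U t x) (Set.Ici 0)

/-- The (possibly unbounded) operator `A` is the generator of `U`: its domain consists exactly of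
those `x` for which `(U h x - x) / h` converges as `h → 0+`, and the limit is `A x`. -/
def IsGenerator (A : B →ₗ.[ℂ] B) (U : ℝ → B →L[ℂ] B) : Prop :=
  (∀ x : B, x ∈ A.domain ↔
    ∃ y, Tendsto (fun h : ℝ => (h : ℂ)⁻¹ • (U h x - x)) (𝓝[>] 0) (𝓝 y)) ∧
  ∀ x : A.domain, Tendsto (fun h : ℝ => (h : ℂ)⁻¹ • (U h x - x)) (𝓝[>] 0) (𝓝 (A x))

/-- The setting of the problem: a bounded projection `P` with finite-dimensional range, operators
`L0`, `L` (not assumed bounded) such that `L0` generates the `C_0`-semigroup `U 0` and `L0 + lam L`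
generates the `C_0`-semigroup `U lam` for `0 < lam < lamSup`, with `U 0 t` leaving the range and the
kernel of `P` invariant, `P L P = 0`, and `U 0 t` invertible (`V` is the group extending it to all
real times). -/
structure Setting (B : Type*) [NormedAddCommGroup B] [NormedSpace ℂ B] where
  P : B →L[ℂ] B
  P_proj : P * P = P
  P_fin : FiniteDimensional ℂ (LinearMap.range (P : B →ₗ[ℂ] B))
  L0 : B →ₗ.[ℂ] B
  L : B →ₗ.[ℂ] B
  lamSup : ℝ
  lamSup_pos : 0 < lamSup
  U : ℝ → ℝ → B →L[ℂ] B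
  semigroup : ∀ lam, 0 ≤ lam → lam < lamSup → IsC0Semigroup (U lam)
  generator_zero : IsGenerator L0 (U 0)
  generator : ∀ lam, 0 < lam → lam < lamSup → IsGenerator (L0 + (lam : ℂ) • L) (U lam)
  inv_range : ∀ t, 0 ≤ t → ∀ x, P x = x → P (U 0 t x) = U 0 t x
  inv_ker : ∀ t, 0 ≤ t → ∀ x, P x = 0 → P (U 0 t x) = 0
  PLP : ∀ x, ∃ h : P x ∈ L.domain, P (L ⟨P x, h⟩) = 0
  V : ℝ → B ≃L[ℂ] B
  V_nonneg : ∀ t, 0 ≤ t → (V t : B →L[ℂ] B) = U 0 t
  V_neg : ∀ t, t < 0 → V t = (V (-t)).symm

variable (S : Setting B)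

/-- `y = L_t x`, where `L_t = (U^0_t)⁻¹ L U^0_t`. -/
def Setting.Lt (t : ℝ) (x y : B) : Prop :=
  ∃ h : S.V t x ∈ S.L.domain, (S.V t).symm (S.L ⟨S.V t x, h⟩) = y

/-- `y = L_{t_1} L_{t_2} ⋯ L_{t_k} x` (all intermediate vectors lying in the domains). -/
def Setting.IsProd : List ℝ → B → B → Prop
  | [], x, y => x = y
  | t :: ts, x, y => ∃ z, Setting.IsProd ts x z ∧ S.Lt t z y

/-- `A` is the operator `P L_{t_1} ⋯ L_{t_k} P`.  (Operators on the range of `P` are represented by
operators `A` on `B` with `P A P = A`.) -/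
def Setting.IsPProd (ts : List ℝ) (A : B →L[ℂ] B) : Prop :=
  ∀ x : B, ∃ y, S.IsProd ts (S.P x) y ∧ A x = S.P y

/-- The integrability hypotheses of the problem for the integer `n`: for `1 ≤ k ≤ n + 1` the
operators `P L_{t_1} ⋯ L_{t_k} P` are well-defined and bounded for all real times and absolutely
integrable over `{t_k < ⋯ < t_1 < t}` for all `t ≥ 0`. -/
def Setting.Hypothesis (n : ℕ) : Prop :=
  ∀ k, 1 ≤ k → k ≤ n + 1 → ∃ A : (Fin k → ℝ) → B →L[ℂ] B,
    (∀ τ, S.IsPProd (List.ofFn τ) (A τ)) ∧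
    ∀ t : ℝ, 0 ≤ t → IntegrableOn (fun τ => ‖A τ‖)
      {τ | (∀ i j, i < j → τ j < τ i) ∧ ∀ i, τ i < t}

/-- The reduced dynamics `P (U^0_s)⁻¹ U^lam_s P`. -/
noncomputable def Setting.reduced (lam s : ℝ) : B →L[ℂ] B :=
  S.P * ((S.V s).symm : B →L[ℂ] B) * S.U lam s * S.P

/-- The product `u_t r` with `r = ∑_{j ≤ m} lam^j R_j` and `u_t = exp (t ∑_{j ≤ m'} lam^j G_j)`. -/
noncomputable def ansatz (m m' : ℕ) (R G : ℕ → B →L[ℂ] B) (lam t : ℝ) : B →L[ℂ] B :=
  NormedSpace.exp ((t : ℂ) • ∑ j ∈ Finset.range (m' + 1), ((lam : ℂ) ^ j) • G j) *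
    ∑ j ∈ Finset.range (m + 1), ((lam : ℂ) ^ j) • R j

/-- The conclusion of the problem for the integer `n`: there are operators `R_j`, `G_j` on the range
of `P` (that is, `P R_j P = R_j` and `P G_j P = G_j`) such that for every fixed `t > 0` the reduced
dynamics at time `t / lam ^ 2` is `u_t r + O(lam ^ (2 n + 2))` as `lam → 0+`. -/
def Setting.Conclusion (n : ℕ) : Prop :=
  ∃ (m m' : ℕ) (R G : ℕ → B →L[ℂ] B),
    (∀ j, S.P * R j * S.P = R j) ∧ (∀ j, S.P * G j * S.P = G j) ∧ ∀ t : ℝ, 0 < t →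
    (fun lam : ℝ => S.reduced lam (t / lam ^ 2) - ansatz m m' R G lam t)
      =O[𝓝[>] 0] (fun lam : ℝ => lam ^ (2 * n + 2))

/-- All `U lam t` are surjective isometries. -/
def Setting.Isometric : Prop :=
  ∀ lam t, (∀ x, ‖S.U lam t x‖ = ‖x‖) ∧ Function.Surjective (S.U lam t)

/-- `P L_{t_1} ⋯ L_{t_k} P = 0` for all real times and ALL `k ≥ 1`. -/
def Setting.VanishAll : Prop :=
  ∀ ts : List ℝ, 1 ≤ ts.length → S.IsPProd ts 0

/-- For no `m`, `m'`, `R_j`, `G_j` does the difference between the reduced dynamics at time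
`t / lam ^ 2` and `u_t r` tend to `0` as `lam → 0+`. -/
def Setting.NoExpansionAt (t : ℝ) : Prop :=
  ∀ (m m' : ℕ) (R G : ℕ → B →L[ℂ] B),
    ¬ Tendsto (fun lam : ℝ => S.reduced lam (t / lam ^ 2) - ansatz m m' R G lam t)
      (𝓝[>] 0) (𝓝 0)

/-- The reduced dynamics at time `t / lam ^ 2` takes, for arbitrarily small `lam > 0`, each of the
values `c P`, `0 ≤ c ≤ 1`, and no other value for any `lam > 0`. -/
def Setting.Oscillates (t : ℝ) : Prop :=
  (∀ lam : ℝ, 0 < lam → ∃ c : ℝ, 0 ≤ c ∧ c ≤ 1 ∧ S.reduced lam (t / lam ^ 2) = (c : ℂ) • S.P) ∧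
  ∀ c : ℝ, 0 ≤ c → c ≤ 1 → ∀ δ : ℝ, 0 < δ →
    ∃ lam : ℝ, 0 < lam ∧ lam < δ ∧ S.reduced lam (t / lam ^ 2) = (c : ℂ) • S.P

end Defs

/-! ### a smooth periodic function, constant near `0` -/

section Func

/-- real version -/
noncomputable def ph (x : ℝ) : ℝ := 1 - Real.smoothTransition (-Real.cos (2 * Real.pi * x))

theorem ph_smooth : ContDiff ℝ (⊤ : ℕ∞) ph := by
  unfold ph
  refine contDiff_const.sub (Real.smoothTransition.contDiff.comp ?_)
  exact (Real.contDiff_cos.comp (contDiff_const.mul contDiff_id)).neg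

theorem ph_zero_near : ph =ᶠ[𝓝 0] fun _ => 1 := by
  have h : ContinuousAt (fun x : ℝ => Real.cos (2 * Real.pi * x)) 0 := by fun_prop
  have h2 : ∀ᶠ x in 𝓝 (0 : ℝ), 0 < Real.cos (2 * Real.pi * x) := by
    refine h.tendsto.eventually (lt_mem_nhds ?_)
    simp
  filter_upwards [h2] with x hx
  unfold ph
  rw [Real.smoothTransition.zero_of_nonpos (by linarith), sub_zero]

theorem ph_nat (k : ℕ) : ph k = 1 := by
  unfold ph
  have : Real.cos (2 * Real.pi * k) = 1 := by
    rw [mul_comm]; exact Real.cos_nat_mul_two_pi k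
  rw [this, Real.smoothTransition.zero_of_nonpos (by norm_num), sub_zero]

theorem ph_half (k : ℕ) : ph (k + 1 / 2) = 0 := by
  unfold ph
  have : Real.cos (2 * Real.pi * (k + 1 / 2)) = -1 := by
    have e : 2 * Real.pi * (k + 1 / 2) = k * (2 * Real.pi) + Real.pi := by ring
    rw [e, Real.cos_nat_mul_two_pi_add_pi]
  rw [this, Real.smoothTransition.one_of_one_le (by norm_num), sub_self]

theorem ph_mem (x : ℝ) : 0 ≤ ph x ∧ ph x ≤ 1 := by
  unfold ph
  have h1 := Real.smoothTransition.le_one (-Real.cos (2 * Real.pi * x))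
  have h2 := Real.smoothTransition.nonneg (-Real.cos (2 * Real.pi * x))
  constructor <;> linarith

theorem ph_periodic : Function.Periodic ph 1 := by
  intro x
  unfold ph
  have : 2 * Real.pi * (x + 1) = 2 * Real.pi * x + 2 * Real.pi := by ring
  rw [this, Real.cos_add_two_pi]

/-- the derivatives, complex valued -/
noncomputable def ps (k : ℕ) (x : ℝ) : ℂ := ((iteratedDeriv k ph x : ℝ) : ℂ)

theorem ps_diff (k : ℕ) (x : ℝ) : HasDerivAt (ps k) (ps (k + 1) x) x := by
  have h1 : DifferentiableAt ℝ (iteratedDeriv k ph) x :=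
    (ph_smooth.differentiable_iteratedDeriv k (by exact_mod_cast (WithTop.coe_lt_top _))) x
  have h2 := h1.hasDerivAt.ofReal_comp
  rw [← iteratedDeriv_succ] at h2
  exact h2

theorem iter_periodic (k : ℕ) : Function.Periodic (iteratedDeriv k ph) 1 := by
  intro x
  have h1 : (fun z : ℝ => ph (z + 1)) = ph := funext ph_periodic
  have h2 := congrFun (iteratedDeriv_comp_add_const k ph 1) x
  rw [h1] at h2
  exact h2.symm

theorem ps_periodic (k : ℕ) : Function.Periodic (ps k) 1 := by
  intro x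
  unfold ps
  rw [iter_periodic k x]

theorem ps_zero_zero : ps 0 0 = 1 := by
  unfold ps
  rw [iteratedDeriv_zero]
  have := ph_nat 0
  simp only [Nat.cast_zero] at this
  rw [this]; norm_num

theorem ps_succ_zero (k : ℕ) : ps (k + 1) 0 = 0 := by
  unfold ps
  have h1 := (ph_zero_near.iteratedDeriv (k + 1)).eq_of_nhds
  rw [h1, iteratedDeriv_const]
  simp

end Func

/-! ### translations of continuous functions on the circle -/

section Trans

/-- the space: continuous functions on the circle `ℝ / ℤ` with the maximum norm -/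
abbrev CT : Type := C(UnitAddCircle, ℂ)

/-- translation of a function -/
noncomputable def trf (a : ℝ) (f : CT) : CT :=
  f.comp ⟨fun x : UnitAddCircle => x + (a : UnitAddCircle), by fun_prop⟩

theorem trf_apply (a : ℝ) (f : CT) (x : UnitAddCircle) : trf a f x = f (x + (a : UnitAddCircle)) :=
  rfl

theorem norm_trf_le (a : ℝ) (f : CT) : ‖trf a f‖ ≤ 1 * ‖f‖ := by
  rw [one_mul, ContinuousMap.norm_le _ (norm_nonneg _)]
  intro x
  exact f.norm_coe_le_norm _

/-- translation as an operator -/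
noncomputable def tr (a : ℝ) : CT →L[ℂ] CT :=
  LinearMap.mkContinuous
    { toFun := trf a
      map_add' := fun _ _ => rfl
      map_smul' := fun _ _ => rfl } 1 (norm_trf_le a)

theorem tr_apply (a : ℝ) (f : CT) (x : UnitAddCircle) : tr a f x = f (x + (a : UnitAddCircle)) :=
  rfl

theorem tr_zero : tr 0 = 1 := by
  ext f x
  rw [tr_apply]
  simp

theorem tr_add (a b : ℝ) : tr (a + b) = tr a * tr b := by
  ext f x
  have h0 : (tr a * tr b) f = tr a (tr b f) := rfl
  rw [h0, tr_apply, tr_apply, tr_apply, AddCircle.coe_add, add_assoc]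

theorem norm_tr (a : ℝ) (f : CT) : ‖tr a f‖ = ‖f‖ := by
  apply le_antisymm
  · exact (norm_trf_le a f).trans (one_mul _).le
  · have h1 : tr (-a) (tr a f) = f := by
      have : tr (-a + a) = tr (-a) * tr a := tr_add _ _
      rw [neg_add_cancel, tr_zero] at this
      exact (congrArg (fun T : CT →L[ℂ] CT => T f) this).symm
    calc ‖f‖ = ‖tr (-a) (tr a f)‖ := by rw [h1]
      _ ≤ 1 * ‖tr a f‖ := norm_trf_le (-a) _
      _ = ‖tr a f‖ := one_mul _

theorem tr_surj (a : ℝ) : Function.Surjective (tr a) := by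
  intro f
  refine ⟨tr (-a) f, ?_⟩
  have : tr (a + -a) = tr a * tr (-a) := tr_add _ _
  rw [add_neg_cancel, tr_zero] at this
  exact (congrArg (fun T : CT →L[ℂ] CT => T f) this).symm

theorem tr_cont (f : CT) : Continuous fun a : ℝ => tr a f := by
  have h : Continuous fun p : ℝ × UnitAddCircle => f (p.2 + (p.1 : UnitAddCircle)) := by
    refine f.continuous.comp (continuous_snd.add ?_)
    exact (AddCircle.continuous_mk' 1).comp continuous_fst
  exact (ContinuousMap.curry ⟨_, h⟩).continuous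

/-- `y` is the derivative of `tr h x` at `h = 0+` -/
def Der (x y : CT) : Prop :=
  Tendsto (fun h : ℝ => (h : ℂ)⁻¹ • (tr h x - x)) (𝓝[>] 0) (𝓝 y)

theorem Der.unique {x y z : CT} (h1 : Der x y) (h2 : Der x z) : y = z :=
  tendsto_nhds_unique h1 h2

theorem Der.add {x y x' y' : CT} (h1 : Der x y) (h2 : Der x' y') : Der (x + x') (y + y') := by
  refine (Tendsto.add h1 h2).congr fun h => ?_
  ext z
  simp only [ContinuousMap.add_apply, ContinuousMap.smul_apply, ContinuousMap.sub_apply, tr_apply,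
    smul_eq_mul]
  ring

theorem Der.smul {x y : CT} (h1 : Der x y) (c : ℂ) : Der (c • x) (c • y) := by
  refine (Tendsto.const_smul h1 c).congr fun h => ?_
  ext z
  simp only [ContinuousMap.smul_apply, ContinuousMap.sub_apply, tr_apply, smul_eq_mul]
  ring

theorem Der.zero : Der 0 0 := by
  unfold Der
  simp

/-- the generator of the translation group -/
noncomputable def gen : CT →ₗ.[ℂ] CT where
  domain :=
    { carrier := {x | ∃ y, Der x y}
      add_mem' := fun ⟨y, hy⟩ ⟨z, hz⟩ => ⟨y + z, hy.add hz⟩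
      zero_mem' := ⟨0, Der.zero⟩
      smul_mem' := fun c _ ⟨y, hy⟩ => ⟨c • y, hy.smul c⟩ }
  toFun :=
    { toFun := fun x => Classical.choose x.2
      map_add' := fun x y => (Classical.choose_spec (x + y).2).unique
        ((Classical.choose_spec x.2).add (Classical.choose_spec y.2))
      map_smul' := fun c x => (Classical.choose_spec (c • x).2).unique
        ((Classical.choose_spec x.2).smul c) }

theorem mem_gen (x : CT) : x ∈ gen.domain ↔ ∃ y, Der x y := Iff.rfl

theorem gen_spec (x : gen.domain) : Der x (gen x) := Classical.choose_spec x.2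

theorem gen_eq {x y : CT} (h : Der x y) : ∃ hx : x ∈ gen.domain, gen ⟨x, hx⟩ = y :=
  ⟨⟨y, h⟩, (gen_spec _).unique h⟩

/-- change of speed -/
theorem der_scale {c : ℝ} (hc : 0 < c) (x y : CT) :
    Tendsto (fun h : ℝ => (h : ℂ)⁻¹ • (tr (c * h) x - x)) (𝓝[>] 0) (𝓝 ((c : ℂ) • y)) ↔
      Der x y := by
  have hc' : (c : ℂ) ≠ 0 := by exact_mod_cast hc.ne'
  have lim1 : ∀ b : ℝ, 0 < b → Tendsto (fun h : ℝ => b * h) (𝓝[>] 0) (𝓝[>] 0) := by
    intro b hb
    apply tendsto_nhdsWithin_of_tendsto_nhds_of_eventually_within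
    · have : Tendsto (fun h : ℝ => b * h) (𝓝 0) (𝓝 (b * 0)) := (continuous_const_mul b).tendsto 0
      rw [mul_zero] at this
      exact this.mono_left nhdsWithin_le_nhds
    · filter_upwards [self_mem_nhdsWithin] with h hh
      exact mul_pos hb hh
  constructor
  · intro h
    have h2 := (h.comp (lim1 c⁻¹ (inv_pos.2 hc))).const_smul ((c : ℂ)⁻¹)
    rw [smul_smul, inv_mul_cancel₀ hc', one_smul] at h2
    refine h2.congr fun s => ?_
    simp only [Function.comp]
    rw [mul_inv_cancel_left₀ hc.ne', smul_smul]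
    congr 1
    push_cast
    rw [mul_inv, inv_inv, ← mul_assoc, inv_mul_cancel₀ hc', one_mul]
  · intro h
    have h2 := (Tendsto.comp h (lim1 c hc)).const_smul (c : ℂ)
    refine h2.congr fun s => ?_
    simp only [Function.comp]
    rw [smul_smul]
    congr 1
    push_cast
    rw [mul_inv, ← mul_assoc, mul_inv_cancel₀ hc', one_mul]

end Trans

/-! ### the vectors -/

section Vec

/-- the derivatives of the periodic function as functions on the circle -/
noncomputable def F (k : ℕ) : CT where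
  toFun := (ps_periodic k).lift
  continuous_toFun := by
    have h : Continuous (ps k) :=
      continuous_iff_continuousAt.2 fun x => (ps_diff k x).continuousAt
    exact continuous_coinduced_dom.mpr h

theorem F_coe (k : ℕ) (x : ℝ) : F k (x : UnitAddCircle) = ps k x := rfl

theorem F_der (k : ℕ) : Der (F k) (F (k + 1)) := by
  obtain ⟨C, hC⟩ : ∃ C, C = ‖F (k + 2)‖ := ⟨_, rfl⟩
  have hC0 : 0 ≤ C := by rw [hC]; exact norm_nonneg _
  have hb : ∀ x : ℝ, ‖ps (k + 2) x‖ ≤ C := by
    intro x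
    rw [hC, ← F_coe]
    exact (F (k + 2)).norm_coe_le_norm _
  have step1 : ∀ x s : ℝ, 0 ≤ s → ‖ps (k + 1) (x + s) - ps (k + 1) x‖ ≤ C * s := by
    intro x s hs
    have := Convex.norm_image_sub_le_of_norm_hasDerivWithin_le (s := Set.univ) (x := x) (y := x + s)
      (fun z _ => (ps_diff (k + 1) z).hasDerivWithinAt) (fun z _ => hb z) convex_univ
      (Set.mem_univ _) (Set.mem_univ _)
    rw [add_sub_cancel_left, Real.norm_of_nonneg hs] at this
    exact this
  have step2 : ∀ x h : ℝ, 0 < h → ‖(h : ℂ)⁻¹ * (ps k (x + h) - ps k x) - ps (k + 1) x‖ ≤ C * h := by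
    intro x h hh
    have hG : ∀ s : ℝ, HasDerivAt (fun s : ℝ => ps k (x + s) - (s : ℂ) * ps (k + 1) x)
        (ps (k + 1) (x + s) - ps (k + 1) x) s := by
      intro s
      have h1 : HasDerivAt (fun s : ℝ => ps k (x + s)) (ps (k + 1) (x + s)) s :=
        (ps_diff k (x + s)).comp_const_add x s
      have h2 : HasDerivAt (fun s : ℝ => (s : ℂ) * ps (k + 1) x) (1 * ps (k + 1) x) s :=
        (Complex.ofRealCLM.hasDerivAt (x := s)).mul_const _
      have h3 := h1.sub h2
      rw [one_mul] at h3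
      exact h3
    have h1 := Convex.norm_image_sub_le_of_norm_hasDerivWithin_le (s := Set.Icc 0 h) (x := 0)
      (y := h) (C := C * h) (fun z _ => (hG z).hasDerivWithinAt)
      (fun z hz => (step1 x z hz.1).trans (mul_le_mul_of_nonneg_left hz.2 hC0))
      (convex_Icc 0 h) ⟨le_rfl, hh.le⟩ ⟨hh.le, le_rfl⟩
    simp only [sub_zero, Complex.ofReal_zero, zero_mul, add_zero] at h1
    rw [Real.norm_of_nonneg hh.le] at h1
    have hh' : (h : ℂ) ≠ 0 := by exact_mod_cast hh.ne'
    have e : (h : ℂ)⁻¹ * (ps k (x + h) - ps k x) - ps (k + 1) x =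
        (h : ℂ)⁻¹ * (ps k (x + h) - (h : ℂ) * ps (k + 1) x - ps k x) := by
      field_simp
      ring
    rw [e, norm_mul, norm_inv, Complex.norm_real, Real.norm_of_nonneg hh.le,
      inv_mul_le_iff₀ hh]
    calc _ ≤ C * h * h := h1
      _ = h * (C * h) := by ring
  unfold Der
  rw [tendsto_iff_norm_sub_tendsto_zero]
  have hlim : Tendsto (fun h : ℝ => C * h) (𝓝[>] 0) (𝓝 0) := by
    have : Tendsto (fun h : ℝ => C * h) (𝓝 0) (𝓝 (C * 0)) := (continuous_const_mul C).tendsto 0
    rw [mul_zero] at this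
    exact this.mono_left nhdsWithin_le_nhds
  refine squeeze_zero' (Eventually.of_forall fun _ => norm_nonneg _) ?_ hlim
  filter_upwards [self_mem_nhdsWithin] with h hh
  rw [ContinuousMap.norm_le _ (mul_nonneg hC0 (le_of_lt hh))]
  intro x
  induction x using QuotientAddGroup.induction_on with
  | H x =>
    exact step2 x h hh

end Vec

/-! ### the example -/

section Example

/-- the projection `P x = x(0) F 0` -/
noncomputable def PP : CT →L[ℂ] CT := (ContinuousMap.evalCLM ℂ (0 : UnitAddCircle)).smulRight (F 0)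

theorem PP_apply (x : CT) : PP x = x 0 • F 0 := rfl

theorem F_zero_zero : F 0 0 = 1 := by
  have := F_coe 0 0
  rw [ps_zero_zero] at this
  simpa using this

theorem F_succ_zero (k : ℕ) : F (k + 1) 0 = 0 := by
  have := F_coe (k + 1) 0
  rw [ps_succ_zero] at this
  simpa using this

theorem PP_PP : PP * PP = PP := by
  ext x
  have h0 : (PP * PP) x = PP (PP x) := rfl
  rw [h0, PP_apply x, map_smul, PP_apply (F 0), F_zero_zero, one_smul]

theorem PP_ne : PP ≠ 0 := by
  intro h
  have h1 : PP (F 0) 0 = (0 : CT →L[ℂ] CT) (F 0) 0 := by rw [h]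
  rw [PP_apply, F_zero_zero, one_smul, F_zero_zero] at h1
  simp at h1

theorem PP_fin : FiniteDimensional ℂ (LinearMap.range (PP : CT →ₗ[ℂ] CT)) := by
  have h : LinearMap.range (PP : CT →ₗ[ℂ] CT) ≤ Submodule.span ℂ {F 0} := by
    rintro _ ⟨x, rfl⟩
    exact Submodule.mem_span_singleton.2 ⟨x 0, rfl⟩
  exact Submodule.finiteDimensional_of_le h

theorem tr_semigroup (lam : ℝ) : IsC0Semigroup (fun t => tr (lam * t)) where
  zero := by rw [mul_zero, tr_zero]
  add := by
    intro s t _ _
    rw [mul_add, tr_add]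
  cont := fun x => ((tr_cont x).comp (continuous_const_mul lam)).continuousOn

/-- the example as an instance of the setting of the problem -/
noncomputable def exm : Setting CT where
  P := PP
  P_proj := PP_PP
  P_fin := PP_fin
  L0 := 0
  L := gen
  lamSup := 1
  lamSup_pos := one_pos
  U := fun lam t => tr (lam * t)
  semigroup := fun lam _ _ => tr_semigroup lam
  generator_zero := by
    have h0 : ∀ x : CT, Tendsto (fun h : ℝ => (h : ℂ)⁻¹ • (tr (0 * h) x - x)) (𝓝[>] 0) (𝓝 0) := by
      intro x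
      have : (fun h : ℝ => (h : ℂ)⁻¹ • (tr (0 * h) x - x)) = fun _ => 0 := by
        funext h
        rw [zero_mul, tr_zero, one_apply_eq_self, sub_self, smul_zero]
      rw [this]
      exact tendsto_const_nhds
    refine ⟨fun x => ⟨fun _ => ⟨0, h0 x⟩, fun _ => trivial⟩, fun x => ?_⟩
    exact h0 x
  generator := by
    intro lam hlam _
    have hdom : ∀ x : CT, x ∈ ((0 : CT →ₗ.[ℂ] CT) + (lam : ℂ) • gen).domain ↔ x ∈ gen.domain := by
      intro x
      rw [LinearPMap.add_domain, LinearPMap.smul_domain, LinearPMap.zero_domain]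
      simp
    refine ⟨fun x => ?_, fun x => ?_⟩
    · rw [hdom, mem_gen]
      constructor
      · rintro ⟨y, hy⟩
        exact ⟨_, (der_scale hlam x y).2 hy⟩
      · rintro ⟨y, hy⟩
        refine ⟨(lam : ℂ)⁻¹ • y, (der_scale hlam x _).1 ?_⟩
        rw [smul_smul, mul_inv_cancel₀ (by exact_mod_cast hlam.ne'), one_smul]
        exact hy
    · have h1 := gen_spec ⟨x.1, (hdom x.1).1 x.2⟩
      have h2 := (der_scale hlam _ _).2 h1
      have h3 : ((0 : CT →ₗ.[ℂ] CT) + (lam : ℂ) • gen) x =
          (lam : ℂ) • gen ⟨x.1, (hdom x.1).1 x.2⟩ := by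
        rw [LinearPMap.add_apply, LinearPMap.smul_apply]
        simp [-Complex.coe_smul]
      rw [h3]
      exact h2
  inv_range := by
    intro t _ x hx
    simp only [zero_mul, tr_zero, one_apply_eq_self]
    exact hx
  inv_ker := by
    intro t _ x hx
    simp only [zero_mul, tr_zero, one_apply_eq_self]
    exact hx
  PLP := by
    intro x
    obtain ⟨h1, h2⟩ := gen_eq ((F_der 0).smul (x 0))
    refine ⟨h1, ?_⟩
    have h3 : gen ⟨PP x, h1⟩ = x 0 • F (0 + 1) := h2
    rw [h3]
    ext z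
    rw [PP_apply]
    simp [F_succ_zero]
  V := fun _ => ContinuousLinearEquiv.refl ℂ CT
  V_nonneg := by
    intro t _
    rw [zero_mul, tr_zero]
    rfl
  V_neg := by
    intro t _
    rfl

theorem prod_F (ts : List ℝ) (x : CT) :
    exm.IsProd ts (exm.P x) (x 0 • F ts.length) := by
  induction ts with
  | nil => rfl
  | cons t ts ih =>
    obtain ⟨h1, h2⟩ := gen_eq ((F_der ts.length).smul (x 0))
    exact ⟨_, ih, h1, h2⟩

theorem PP_F (a : ℂ) (k : ℕ) : PP (a • F (k + 1)) = 0 := by
  ext z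
  rw [PP_apply]
  simp [F_succ_zero]

theorem vanish : exm.VanishAll := by
  intro ts h1 x
  refine ⟨_, prod_F ts x, ?_⟩
  obtain ⟨k, hk⟩ : ∃ k, ts.length = k + 1 := ⟨ts.length - 1, by omega⟩
  have h2 : exm.P (x 0 • F ts.length) = 0 := by rw [hk]; exact PP_F _ _
  rw [h2]
  rfl

theorem hypothesis (n : ℕ) : exm.Hypothesis n := by
  intro k hk _
  refine ⟨fun _ => 0, fun τ => vanish _ (by simpa using hk), fun t _ => ?_⟩
  simp

theorem reduced_eq (lam s : ℝ) : exm.reduced lam s = (ph (lam * s) : ℂ) • PP := by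
  ext1 x
  have h0 : exm.reduced lam s x = PP (tr (lam * s) (PP x)) := rfl
  rw [h0, PP_apply x, map_smul, map_smul, PP_apply (tr (lam * s) (F 0)), tr_apply, zero_add, F_coe,
    smul_apply, PP_apply x, smul_comm]
  unfold ps
  rw [iteratedDeriv_zero]

theorem ph_cont : Continuous ph := ph_smooth.continuous

theorem oscillates {t : ℝ} (ht : 0 < t) : exm.Oscillates t := by
  refine ⟨fun lam _ => ⟨_, (ph_mem _).1, (ph_mem _).2, reduced_eq _ _⟩, ?_⟩
  intro c hc0 hc1 δ hδ
  obtain ⟨k, hk⟩ := exists_nat_gt (t / δ)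
  have hk0 : (0 : ℝ) < k := lt_trans (by positivity) hk
  have h1 : c ∈ ph '' Set.Icc (k : ℝ) (k + 1 / 2) := by
    apply intermediate_value_Icc' (by linarith) ph_cont.continuousOn
    rw [ph_half, ph_nat]
    exact ⟨hc0, hc1⟩
  obtain ⟨u, hu, huc⟩ := h1
  have hu0 : 0 < u := hk0.trans_le hu.1
  refine ⟨t / u, by positivity, ?_, ?_⟩
  · rw [div_lt_iff₀ hu0]
    rw [div_lt_iff₀ hδ] at hk
    nlinarith [hu.1]
  · rw [reduced_eq]
    have : t / u * (t / (t / u) ^ 2) = u := by
      field_simp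
    rw [this, huc]
    rfl

theorem ansatz_tendsto (m m' : ℕ) (R G : ℕ → CT →L[ℂ] CT) (t : ℝ) :
    Tendsto (fun lam : ℝ => ansatz m m' R G lam t) (𝓝[>] 0) (𝓝 (ansatz m m' R G 0 t)) := by
  have h : Continuous fun lam : ℝ => ansatz m m' R G lam t := by
    unfold ansatz
    let _ : NormedAlgebra ℚ (CT →L[ℂ] CT) := NormedAlgebra.restrictScalars ℚ ℂ _
    apply Continuous.mul
    · apply NormedSpace.exp_continuous.comp
      fun_prop
    · fun_prop
  exact (h.tendsto 0).mono_left nhdsWithin_le_nhds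

theorem no_limit {t : ℝ} (ht : 0 < t) (ℓ : CT →L[ℂ] CT) :
    ¬ Tendsto (fun lam : ℝ => exm.reduced lam (t / lam ^ 2)) (𝓝[>] 0) (𝓝 ℓ) := by
  intro h
  have key : ∀ c : ℝ, 0 ≤ c → c ≤ 1 → (c : ℂ) • PP = ℓ := by
    intro c h0 h1
    have hfreq : ∃ᶠ lam : ℝ in 𝓝[>] 0, exm.reduced lam (t / lam ^ 2) = (c : ℂ) • PP := by
      rw [frequently_nhdsWithin_iff, Metric.nhds_basis_ball.frequently_iff]
      intro δ hδ
      obtain ⟨lam, hl0, hl1, hl2⟩ := (oscillates ht).2 c h0 h1 δ hδ
      refine ⟨lam, ?_, hl2, hl0⟩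
      rw [Metric.mem_ball, Real.dist_eq, sub_zero, abs_of_pos hl0]
      exact hl1
    by_contra hne
    have hev := h.eventually (isOpen_compl_singleton.mem_nhds (Ne.symm hne : ℓ ≠ (c : ℂ) • PP))
    exact hfreq (hev.mono fun lam h1 h2 => h1 h2)
  have e1 := key 0 le_rfl zero_le_one
  have e2 := key 1 zero_le_one le_rfl
  rw [← e1] at e2
  apply PP_ne
  simpa using e2

theorem no_expansion {t : ℝ} (ht : 0 < t) : exm.NoExpansionAt t := by
  intro m m' R G h
  have h1 := h.add (ansatz_tendsto m m' R G t)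
  rw [zero_add] at h1
  refine no_limit ht _ (h1.congr fun lam => ?_)
  rw [sub_add_cancel]

end Example

/-- **Main theorem.** There is ONE instance of the setting of the problem, on the space of
continuous functions on the circle, with `L0 = 0`, `P` of rank one and all `U lam t` surjective
isometries, such that
* all the operators `P L_{t_1} ⋯ L_{t_k} P`, `k ≥ 1` arbitrary, are defined and vanish identically, so
  the hypotheses of the problem hold for EVERY `n`;
* for every `t > 0` the reduced dynamics at time `t / lam ^ 2` takes exactly the values `c P`,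
  `0 ≤ c ≤ 1`, each of them for arbitrarily small `lam > 0`; so it has no limit as `lam → 0+`, and its
  difference from `u_t r` does not tend to `0` for any polynomial `r`, `G`;
* the conclusion of the problem fails for every `n`. -/
theorem result : ∃ S : Setting C(UnitAddCircle, ℂ),
    S.L0 = 0 ∧ (∃ e : C(UnitAddCircle, ℂ), e ≠ 0 ∧ ∀ x, ∃ a : ℂ, S.P x = a • e) ∧
    S.Isometric ∧ S.VanishAll ∧ (∀ n, S.Hypothesis n) ∧
    (∀ t, 0 < t → S.Oscillates t ∧ S.NoExpansionAt t ∧
      ¬ ∃ ℓ, Tendsto (fun lam : ℝ => S.reduced lam (t / lam ^ 2)) (𝓝[>] 0) (𝓝 ℓ)) ∧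
    ∀ n, ¬ S.Conclusion n := by
  refine ⟨exm, rfl, ⟨F 0, ?_, fun x => ⟨x 0, rfl⟩⟩, fun lam t => ⟨norm_tr _, tr_surj _⟩, vanish,
    hypothesis, fun t ht => ⟨oscillates ht, no_expansion ht, fun ⟨ℓ, h⟩ => no_limit ht ℓ h⟩, ?_⟩
  · intro h
    have := F_zero_zero
    rw [h] at this
    simp at this
  · rintro n ⟨m, m', R, G, _, _, h⟩
    refine no_expansion one_pos m m' R G ?_
    refine (h 1 one_pos).trans_tendsto ?_
    have h1 : Tendsto (fun lam : ℝ => lam ^ (2 * n + 2)) (𝓝 0) (𝓝 (0 ^ (2 * n + 2))) :=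
      (continuous_pow _).tendsto 0
    rw [zero_pow (by omega)] at h1
    exact h1.mono_left nhdsWithin_le_nhds

end Pool.Agent.Results.MP_245269_an.AllOrdersAtOnce
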